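import Pool.Agent.H979.BK.Stm

/-! # Matching of two colourings with given counts (project BK of helper979) -/

set_option autoImplicit false

namespace Pool.Agent.H630

open Filter Topology Finset Pool.Agent.H979.BK

/-- two functions can be matched up to the difference of their counts -/
lemma bk_match_one {n d : ℕ} (f g : Fin n → Fin d) : ∃ τ : Equiv.Perm (Fin n),
    ((univ.filter fun a => f a ≠ g (τ a)).card : ℝ) ≤
      ∑ j, |((univ.filter fun a => f a = j).card : ℝ) -
        ((univ.filter fun a => g a = j).card : ℝ)| := by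
  obtain ⟨τ, -, hτ⟩ := exists_max_image (univ : Finset (Equiv.Perm (Fin n)))
    (fun τ => (univ.filter fun a => f a = g (τ a)).card) univ_nonempty
  have key : ∀ j, (∀ a, f a = j → f a = g (τ a)) ∨ (∀ a, g (τ a) = j → f a = g (τ a)) := by
    intro j
    by_contra hc
    push Not at hc
    obtain ⟨⟨a, ha, ha'⟩, b, hb, hb'⟩ := hc
    have h1 := hτ (τ * Equiv.swap a b) (mem_univ _)
    have h2 : (univ.filter fun x => f x = g (τ x)) ⊂
        (univ.filter fun x => f x = g ((τ * Equiv.swap a b) x)) := by
      rw [Finset.ssubset_iff_of_subset]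
      · refine ⟨a, ?_, ?_⟩
        · rw [mem_filter]
          refine ⟨mem_univ _, ?_⟩
          rw [Equiv.Perm.mul_apply, Equiv.swap_apply_left, ha, hb]
        · rw [mem_filter]
          exact fun h => ha' h.2
      · intro x hx
        rw [mem_filter] at hx ⊢
        refine ⟨mem_univ _, ?_⟩
        have hxa : x ≠ a := by rintro rfl; exact ha' hx.2
        have hxb : x ≠ b := by rintro rfl; exact hb' hx.2
        rw [Equiv.Perm.mul_apply, Equiv.swap_apply_of_ne_of_ne hxa hxb]
        exact hx.2
    exact absurd (card_lt_card h2) (not_lt.2 h1)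
  refine ⟨τ, ?_⟩
  have hsum : (univ.filter fun a => f a ≠ g (τ a)).card =
      ∑ j, (univ.filter fun a => f a = j ∧ f a ≠ g (τ a)).card := by
    rw [card_eq_sum_card_fiberwise (f := f) (t := univ) (fun _ _ => by simp)]
    refine sum_congr rfl fun j _ => ?_
    rw [filter_filter]
    refine congrArg card (filter_congr fun a _ => ?_)
    exact and_comm
  rw [hsum]
  push_cast
  refine sum_le_sum fun j _ => ?_
  have e1 : (univ.filter fun a => f a = j).card =
      (univ.filter fun a => f a = j ∧ f a = g (τ a)).card +
        (univ.filter fun a => f a = j ∧ f a ≠ g (τ a)).card := by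
    rw [← card_filter_add_card_filter_not (s := univ.filter fun a => f a = j)
      (fun a => f a = g (τ a)), filter_filter, filter_filter]
  have e2 : (univ.filter fun a => g a = j).card = (univ.filter fun a => g (τ a) = j).card := by
    refine (card_bij (fun a _ => τ a) ?_ ?_ ?_).symm
    · intro a ha
      rw [mem_filter] at ha ⊢
      exact ⟨mem_univ _, ha.2⟩
    · intro a _ b _ h
      exact τ.injective h
    · intro b hb
      rw [mem_filter] at hb
      refine ⟨τ.symm b, ?_, by simp⟩
      rw [mem_filter]
      refine ⟨mem_univ _, ?_⟩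
      rw [Equiv.apply_symm_apply]
      exact hb.2
  have e3 : (univ.filter fun a => g (τ a) = j).card =
      (univ.filter fun a => g (τ a) = j ∧ f a = g (τ a)).card +
        (univ.filter fun a => g (τ a) = j ∧ f a ≠ g (τ a)).card := by
    rw [← card_filter_add_card_filter_not (s := univ.filter fun a => g (τ a) = j)
      (fun a => f a = g (τ a)), filter_filter, filter_filter]
  have e4 : (univ.filter fun a => f a = j ∧ f a = g (τ a)) =
      (univ.filter fun a => g (τ a) = j ∧ f a = g (τ a)) := by
    refine filter_congr fun a _ => ?_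
    constructor
    · rintro ⟨h1, h2⟩
      exact ⟨h2 ▸ h1, h2⟩
    · rintro ⟨h1, h2⟩
      exact ⟨h2.trans h1, h2⟩
  rcases key j with h | h
  · have h0 : (univ.filter fun a => f a = j ∧ f a ≠ g (τ a)).card = 0 := by
      rw [card_eq_zero, filter_eq_empty_iff]
      rintro a - ⟨h1, h2⟩
      exact h2 (h a h1)
    rw [h0, Nat.cast_zero]
    exact abs_nonneg _
  · have h0 : (univ.filter fun a => g (τ a) = j ∧ f a ≠ g (τ a)).card = 0 := by
      rw [card_eq_zero, filter_eq_empty_iff]
      rintro a - ⟨h1, h2⟩
      exact h2 (h a h1)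
    rw [h0, add_zero] at e3
    rw [e2, e3, e1, e4]
    push_cast
    refine le_trans (le_of_eq ?_) (le_abs_self _)
    ring

lemma bk_card_prod {d n : ℕ} (P : Ball d n → Prop) [DecidablePred P] :
    (univ.filter P).card = ∑ i, (univ.filter fun a => P (i, a)).card := by
  simp only [card_filter]
  exact Fintype.sum_prod_type _

lemma bk_cnt_fst {d n : ℕ} (c : Ball d n → Fin d) (l j : Fin d) :
    cnt c Prod.fst l j = (univ.filter fun a => c (l, a) = j).card := by
  unfold cnt
  rw [bk_card_prod, sum_eq_single l]
  · refine congrArg card (filter_congr fun a _ => ?_)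
    simp
  · intro i _ hi
    rw [card_eq_zero, filter_eq_empty_iff]
    rintro a - ⟨h1, -⟩
    exact hi h1
  · intro h
    exact absurd (mem_univ l) h

/-- **S_MATCH.** -/
theorem bk_match : S_MATCH := by
  intro d n c c' hc hc'
  choose τ hτ using fun i : Fin d => bk_match_one (fun a => c (i, a)) (fun a => c' (i, a))
  have hcnt : cnt (fun b : Ball d n => c' (b.1, τ b.1 b.2)) Prod.fst = cnt c' Prod.fst := by
    funext l j
    rw [bk_cnt_fst, bk_cnt_fst]
    refine card_bij (fun a _ => τ l a) ?_ ?_ ?_
    · intro a ha
      rw [mem_filter] at ha ⊢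
      exact ⟨mem_univ _, ha.2⟩
    · intro a _ b _ h
      exact (τ l).injective h
    · intro b hb
      rw [mem_filter] at hb
      refine ⟨(τ l).symm b, ?_, by simp⟩
      rw [mem_filter]
      refine ⟨mem_univ _, ?_⟩
      simp only [Equiv.apply_symm_apply]
      exact hb.2
  refine ⟨c, fun b => c' (b.1, τ b.1 b.2), hc, ?_, rfl, hcnt, ?_⟩
  · intro j
    refine Eq.trans ?_ (hc' j)
    rw [bk_card_prod, bk_card_prod]
    refine sum_congr rfl fun i _ => ?_
    have h := congrFun (congrFun hcnt i) j
    rw [bk_cnt_fst, bk_cnt_fst] at h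
    exact h
  · unfold dif ell
    rw [bk_card_prod]
    push_cast
    refine sum_le_sum fun i _ => ?_
    have h := hτ i
    simp only [bk_cnt_fst]
    exact h

end Pool.Agent.H630
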