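import Pool.Agent.H683.CV.PLem

/-!
# Project CV of helper683: one step and the final test run in polynomial time
-/

set_option autoImplicit false

namespace Pool.Agent.NPC.H630CV

open Pool.Agent.NPC Pool.Agent.H633R2 Pool.Agent.H683.CV

variable {α : Type} [TEnc α]

theorem poly_find {β : Type} [TEnc β] {l : α → List β} {p : α → β → Bool} (hl : Poly l)
    (hp : Poly (fun x : α × β => p x.1 x.2)) : Poly (fun a => (l a).find? (p a)) :=
  (Poly.head? (Poly.filter hl hp)).congr fun _ => List.head?_filter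

theorem poly_entry {M : α → List (List Bool)} {i j : α → ℕ} (hM : Poly M)
    (hi : Poly i) (hj : Poly j) : Poly (fun a => entry (M a) (i a) (j a)) :=
  Poly.getD (Poly.getD hM hi (Poly.const [])) hj (Poly.const false)

theorem poly_ne {u v : α → ℕ} (hu : Poly u) (hv : Poly v) : Poly (fun a => decide (u a ≠ v a)) :=
  (Poly.not (Poly.decide_eq hu hv)).congr fun a => by
    by_cases h : u a = v a
    · rw [decide_eq_true h, decide_eq_false (not_not.2 h)]; rfl
    · rw [decide_eq_false h, decide_eq_true (p := u a ≠ v a) h]; rfl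

theorem poly_adj {M : α → List (List Bool)} {u v : α → ℕ} (hM : Poly M) (hu : Poly u)
    (hv : Poly v) : Poly (fun a => adj (M a) (u a) (v a)) := by
  unfold adj
  exact Poly.and (poly_ne hu hv) (Poly.or (poly_entry hM hu hv) (poly_entry hM hv hu))

theorem poly_nin {S : α → List ℕ} {u : α → ℕ} (hS : Poly S) (hu : Poly u) :
    Poly (fun a => nin (S a) (u a)) := by
  unfold nin
  exact Poly.all (p := fun a s => !decide (s = u a)) hS
    (Poly.not (Poly.decide_eq (Poly.snd Poly.id) (hu.comp (Poly.fst Poly.id))))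

theorem poly_vs {M : α → List (List Bool)} {S : α → List ℕ} (hM : Poly M) (hS : Poly S) :
    Poly (fun a => vs (M a) (S a)) := by
  unfold vs
  exact Poly.filter (l := fun a => List.range (M a).length) (p := fun a v => nin (S a) v)
    (UPoly.range (UPoly.length hM)) (poly_nin (hS.comp (Poly.fst Poly.id)) (Poly.snd Poly.id))

theorem poly_reps {M : α → List (List Bool)} {S : α → List ℕ} (hM : Poly M) (hS : Poly S) :
    Poly (fun a => reps (M a) (S a)) := by
  unfold reps
  have hM1 : Poly (fun a : α × ℕ => M a.1) := hM.comp (Poly.fst Poly.id)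
  have hS1 : Poly (fun a : α × ℕ => S a.1) := hS.comp (Poly.fst Poly.id)
  refine Poly.filter (l := fun a => vs (M a) (S a))
    (p := fun a v => (vs (M a) (S a)).all fun u => !(adj (M a) u v && decide (u < v)))
    (poly_vs hM hS) ?_
  refine Poly.all (l := fun a : α × ℕ => vs (M a.1) (S a.1))
    (p := fun a u => !(adj (M a.1) u a.2 && decide (u < a.2))) (poly_vs hM1 hS1) ?_
  exact Poly.not (Poly.and (poly_adj (hM1.comp (Poly.fst Poly.id)) (Poly.snd Poly.id)
    (Poly.snd (Poly.fst Poly.id))) (Poly.decide_lt (Poly.snd Poly.id)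
    (Poly.snd (Poly.fst Poly.id))))

theorem valB_pow (k : ℕ) : valB (List.replicate k false ++ [true]) = 2 ^ k := by
  induction k with
  | zero => rfl
  | succ k ih =>
    rw [List.replicate_succ, List.cons_append, valB_cons, ih, pow_succ, if_neg Bool.false_ne_true]
    ring

theorem poly_two_pow {p : α → ℕ} (hp : UPoly p) : Poly (fun a => 2 ^ p a) := by
  refine (Poly.valBits (l := fun a => (List.replicate (p a) ()).map (fun _ => false) ++ [true])
    ?_).congr fun a => ?_
  · exact Poly.append (Poly.map (l := fun a => List.replicate (p a) ()) (F := fun _ _ => false) hp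
      (Poly.const false)) (Poly.const [true])
  · rw [List.map_replicate, valB_pow]

theorem poly_subs {p : α → ℕ} {w : α → List Unit} (hp : UPoly p) (hw : Poly w) :
    Poly (fun a => subs (p a) (w a)) := by
  unfold subs
  exact UPoly.range (UPoly.of_le (m := fun a => min (2 ^ p a) (w a).length)
    (n := fun a => (w a).length)
    (Poly.min (poly_two_pow hp) (Poly.length hw)) (UPoly.length hw) fun _ => min_le_right _ _)

theorem poly_tA {M : α → List (List Bool)} {S : α → List ℕ} {p : α → ℕ} {w : α → List Unit}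
    (hM : Poly M) (hS : Poly S) (hp : UPoly p) (hw : Poly w) :
    Poly (fun a => tA (M a) (S a) (p a) (w a)) := by
  unfold tA
  refine Poly.flatMap (l := fun a => List.range ((reps (M a) (S a)).length + 1))
    (F := fun a t => (subs (p a) (w a)).map fun A => (t, A))
    (UPoly.range (UPoly.add (UPoly.length (poly_reps hM hS)) (UPoly.const 1))) ?_
  have hp1 : UPoly (fun a : α × ℕ => p a.1) := hp.comp (Poly.fst Poly.id)
  have hw1 : Poly (fun a : α × ℕ => w a.1) := hw.comp (Poly.fst Poly.id)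
  exact Poly.map (l := fun a : α × ℕ => subs (p a.1) (w a.1)) (F := fun a A => (a.2, A))
    (poly_subs hp1 hw1) (Poly.pair (Poly.snd (Poly.fst Poly.id)) (Poly.snd Poly.id))

theorem poly_gapv {q : α → ℕ} {cl x : α → List ℕ} {t : α → ℕ × ℕ} (hq : Poly q) (hc : Poly cl)
    (hx : Poly x) (ht : Poly t) : Poly (fun a => gapv (q a) (cl a) (x a) (t a)) := by
  unfold gapv
  exact Poly.and
    (Poly.decide_lt (Poly.getD hc (Poly.snd ht) (Poly.const 0))
      (Poly.getD hc (Poly.fst ht) (Poly.const 0)))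
    (Poly.decide_lt (Poly.getD hx (Poly.fst ht) (Poly.const 0))
      (Poly.succ (Poly.add (Poly.getD hx (Poly.snd ht) (Poly.const 0)) hq)))

theorem poly_prs {p : α → ℕ} (hp : UPoly p) : Poly (fun a => prs (p a)) := by
  unfold prs
  refine Poly.flatMap (l := fun a => List.range (p a))
    (F := fun a i => (List.range (p a)).map fun j => (i, j)) (UPoly.range hp) ?_
  have hp1 : UPoly (fun a : α × ℕ => p a.1) := hp.comp (Poly.fst Poly.id)
  exact Poly.map (l := fun a : α × ℕ => List.range (p a.1)) (F := fun a j => (a.2, j))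
    (UPoly.range hp1) (Poly.pair (Poly.snd (Poly.fst Poly.id)) (Poly.snd Poly.id))

theorem poly_mul {n : α → ℕ} {B : α → List ℕ} {y : α → ℕ} (hn : Poly n) (hB : Poly B)
    (hy : Poly y) : Poly (fun a => mul (n a) (B a) (y a)) := by
  unfold mul
  exact Poly.length (Poly.filter (p := fun a b => decide (min b (n a) = y a)) hB
    (Poly.decide_eq (Poly.min (Poly.snd Poly.id) (hn.comp (Poly.fst Poly.id)))
      (hy.comp (Poly.fst Poly.id))))

theorem poly_multv {n : α → ℕ} {B : α → List ℕ} {p : α → ℕ} {cl x : α → List ℕ} {j : α → ℕ}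
    (hn : Poly n) (hB : Poly B) (hp : UPoly p) (hc : Poly cl) (hx : Poly x) (hj : Poly j) :
    Poly (fun a => multv (n a) (B a) (p a) (cl a) (x a) (j a)) := by
  unfold multv
  have hc1 : Poly (fun a : α × ℕ => cl a.1) := hc.comp (Poly.fst Poly.id)
  have hx1 : Poly (fun a : α × ℕ => x a.1) := hx.comp (Poly.fst Poly.id)
  have hj1 : Poly (fun a : α × ℕ => j a.1) := hj.comp (Poly.fst Poly.id)
  have hi : Poly (fun a : α × ℕ => a.2) := Poly.snd Poly.id
  exact Poly.decide_lt (poly_mul hn hB (Poly.getD hx hj (Poly.const 0)))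
    (Poly.length (Poly.filter (l := fun a => List.range (p a))
      (p := fun a i => decide ((cl a).getD i 0 = (cl a).getD (j a) 0) &&
        decide ((x a).getD i 0 = (x a).getD (j a) 0)) (UPoly.range hp)
      (Poly.and (Poly.decide_eq (Poly.getD hc1 hi (Poly.const 0)) (Poly.getD hc1 hj1 (Poly.const 0)))
        (Poly.decide_eq (Poly.getD hx1 hi (Poly.const 0)) (Poly.getD hx1 hj1 (Poly.const 0))))))

theorem poly_bt {A j : α → ℕ} (hA : Poly A) (hj : Poly j) : Poly (fun a => bt (A a) (j a)) := by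
  unfold bt
  exact Poly.getD (Poly.natBits hA) hj (Poly.const false)

theorem poly_siz {Z : α → List (ℕ × ℕ)} {j : α → ℕ} (hZ : Poly Z) (hj : Poly j) :
    Poly (fun a => siz (Z a) (j a)) := by
  unfold siz
  exact Poly.length (Poly.filter (p := fun a z => decide (z.2 = j a)) hZ
    (Poly.decide_eq (Poly.snd (Poly.snd Poly.id)) (hj.comp (Poly.fst Poly.id))))

theorem poly_cand {Z : α → List (ℕ × ℕ)} {x : α → List ℕ} {t A j : α → ℕ} (hZ : Poly Z)
    (hx : Poly x) (ht : Poly t) (hA : Poly A) (hj : Poly j) :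
    Poly (fun a => cand (Z a) (x a) (t a) (A a) (j a)) := by
  unfold cand
  exact Poly.and (poly_bt hA hj) (Poly.decide_lt (Poly.getD hx hj (Poly.const 0))
    (Poly.add ht (poly_siz hZ hj)))

theorem poly_raise {cl : α → List ℕ} {p : α → ℕ} {x : α → List ℕ} {j : α → ℕ} (hc : Poly cl)
    (hp : UPoly p) (hx : Poly x) (hj : Poly j) :
    Poly (fun a => raise (cl a) (p a) (x a) (j a)) := by
  unfold raise
  have hc1 : Poly (fun a : α × ℕ => cl a.1) := hc.comp (Poly.fst Poly.id)
  have hx1 : Poly (fun a : α × ℕ => x a.1) := hx.comp (Poly.fst Poly.id)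
  have hj1 : Poly (fun a : α × ℕ => j a.1) := hj.comp (Poly.fst Poly.id)
  have hi : Poly (fun a : α × ℕ => a.2) := Poly.snd Poly.id
  exact Poly.map (l := fun a => List.range (p a))
    (F := fun a i => (x a).getD i 0 + if (cl a).getD i 0 = (cl a).getD (j a) 0 then 1 else 0)
    (UPoly.range hp) (Poly.add (Poly.getD hx1 hi (Poly.const 0))
      (Poly.ite (Poly.decide_eq (Poly.getD hc1 hi (Poly.const 0))
        (Poly.getD hc1 hj1 (Poly.const 0))) (Poly.const 1) (Poly.const 0)))

/-- the violation test, at a pair -/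
theorem poly_vt (H : S_PVIOL) {M : α → List (List Bool)} {B S : α → List ℕ}
    {Z : α → List (ℕ × ℕ)} {p : α → ℕ} {w : α → List Unit} {x : α → List ℕ}
    (hM : Poly M) (hB : Poly B) (hS : Poly S) (hZ : Poly Z) (hp : UPoly p) (hw : Poly w)
    (hx : Poly x) : Poly (fun a : α × ℕ × ℕ => viol (M a.1) (B a.1) (S a.1) (Z a.1) (p a.1)
      (w a.1) (x a.1) a.2.1 a.2.2) :=
  H (α × ℕ × ℕ) _ _ _ _ _ _ _ _ _ (hM.comp (Poly.fst Poly.id)) (hB.comp (Poly.fst Poly.id))
    (hS.comp (Poly.fst Poly.id)) (hZ.comp (Poly.fst Poly.id)) (hp.comp (Poly.fst Poly.id))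
    (hw.comp (Poly.fst Poly.id)) (hx.comp (Poly.fst Poly.id)) (Poly.fst (Poly.snd Poly.id))
    (Poly.snd (Poly.snd Poly.id))

/-- the choice of the candidate -/
theorem poly_pick {Z : α → List (ℕ × ℕ)} {p : α → ℕ} {x : α → List ℕ} (hZ : Poly Z)
    (hp : UPoly p) (hx : Poly x) : Poly (fun a : α × ℕ × ℕ =>
      (List.range (p a.1)).find? fun j => cand (Z a.1) (x a.1) a.2.1 a.2.2 j &&
          (List.range (p a.1)).all fun i => !cand (Z a.1) (x a.1) a.2.1 a.2.2 i ||
            decide ((x a.1).getD i 0 ≤ (x a.1).getD j 0)) := by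
  have hp1 : UPoly (fun a : α × ℕ × ℕ => p a.1) := hp.comp (Poly.fst Poly.id)
  refine poly_find (l := fun a : α × ℕ × ℕ => List.range (p a.1))
    (p := fun a j => cand (Z a.1) (x a.1) a.2.1 a.2.2 j &&
          (List.range (p a.1)).all fun i => !cand (Z a.1) (x a.1) a.2.1 a.2.2 i ||
            decide ((x a.1).getD i 0 ≤ (x a.1).getD j 0)) (UPoly.range hp1) ?_
  have f1 : Poly (fun b : (α × ℕ × ℕ) × ℕ => b.1.1) := Poly.fst (Poly.fst Poly.id)
  have hZ2 : Poly (fun b : (α × ℕ × ℕ) × ℕ => Z b.1.1) := hZ.comp f1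
  have hx2 : Poly (fun b : (α × ℕ × ℕ) × ℕ => x b.1.1) := hx.comp f1
  have hp2 : UPoly (fun b : (α × ℕ × ℕ) × ℕ => p b.1.1) := hp.comp f1
  have ht2 : Poly (fun b : (α × ℕ × ℕ) × ℕ => b.1.2.1) :=
    Poly.fst (Poly.snd (Poly.fst Poly.id))
  have hA2 : Poly (fun b : (α × ℕ × ℕ) × ℕ => b.1.2.2) :=
    Poly.snd (Poly.snd (Poly.fst Poly.id))
  refine Poly.and (poly_cand hZ2 hx2 ht2 hA2 (Poly.snd Poly.id)) ?_
  refine Poly.all (l := fun b : (α × ℕ × ℕ) × ℕ => List.range (p b.1.1))
    (p := fun b i => !cand (Z b.1.1) (x b.1.1) b.1.2.1 b.1.2.2 i ||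
            decide ((x b.1.1).getD i 0 ≤ (x b.1.1).getD b.2 0)) (UPoly.range hp2) ?_
  have g1 : Poly (fun c : ((α × ℕ × ℕ) × ℕ) × ℕ => c.1) := Poly.fst Poly.id
  have gi : Poly (fun c : ((α × ℕ × ℕ) × ℕ) × ℕ => c.2) := Poly.snd Poly.id
  exact Poly.or (Poly.not (poly_cand (hZ2.comp g1) (hx2.comp g1) (ht2.comp g1) (hA2.comp g1) gi))
    (Poly.decide_le (Poly.getD (hx2.comp g1) gi (Poly.const 0))
      (Poly.getD (hx2.comp g1) (Poly.snd g1) (Poly.const 0)))

theorem poly_f1 {S : α → List ℕ} {cl : α → List ℕ} {p : α → ℕ} {x : α → List ℕ}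
    (hS : Poly S) (hc : Poly cl) (hp : UPoly p) (hx : Poly x) :
    Poly (fun a => (prs (p a)).find? (gapv (S a).length (cl a) (x a))) := by
  have hS1 : Poly (fun a : α × ℕ × ℕ => (S a.1).length) :=
    Poly.length (hS.comp (Poly.fst Poly.id))
  have hc1 : Poly (fun a : α × ℕ × ℕ => cl a.1) := hc.comp (Poly.fst Poly.id)
  have hx1 : Poly (fun a : α × ℕ × ℕ => x a.1) := hx.comp (Poly.fst Poly.id)
  exact poly_find (l := fun a => prs (p a)) (p := fun a t => gapv (S a).length (cl a) (x a) t)
      (poly_prs hp) (poly_gapv hS1 hc1 hx1 (Poly.snd Poly.id))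

theorem poly_f2 {M : α → List (List Bool)} {B : α → List ℕ}
    {cl : α → List ℕ} {p : α → ℕ} {x : α → List ℕ}
    (hM : Poly M) (hB : Poly B) (hc : Poly cl) (hp : UPoly p) (hx : Poly x) :
    Poly (fun a => (List.range (p a)).find? (multv (M a).length (B a) (p a) (cl a) (x a))) := by
  have hM1 : Poly (fun a : α × ℕ => (M a.1).length) := Poly.length (hM.comp (Poly.fst Poly.id))
  have hB1 : Poly (fun a : α × ℕ => B a.1) := hB.comp (Poly.fst Poly.id)
  have hc1 : Poly (fun a : α × ℕ => cl a.1) := hc.comp (Poly.fst Poly.id)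
  have hx1 : Poly (fun a : α × ℕ => x a.1) := hx.comp (Poly.fst Poly.id)
  have hp1 : UPoly (fun a : α × ℕ => p a.1) := hp.comp (Poly.fst Poly.id)
  exact poly_find (l := fun a => List.range (p a))
      (p := fun a j => multv (M a).length (B a) (p a) (cl a) (x a) j) (UPoly.range hp)
      (poly_multv hM1 hB1 hp1 hc1 hx1 (Poly.snd Poly.id))

theorem poly_f3 (H : S_PVIOL) {M : α → List (List Bool)} {B S : α → List ℕ}
    {Z : α → List (ℕ × ℕ)} {p : α → ℕ} {w : α → List Unit} {x : α → List ℕ}
    (hM : Poly M) (hB : Poly B) (hS : Poly S) (hZ : Poly Z) (hp : UPoly p)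
    (hw : Poly w) (hx : Poly x) :
    Poly (fun a => (tA (M a) (S a) (p a) (w a)).find? (fun t =>
      viol (M a) (B a) (S a) (Z a) (p a) (w a) (x a) t.1 t.2)) :=
  poly_find (l := fun a => tA (M a) (S a) (p a) (w a))
      (p := fun a t => viol (M a) (B a) (S a) (Z a) (p a) (w a) (x a) t.1 t.2)
      (poly_tA hM hS hp hw) (poly_vt H hM hB hS hZ hp hw hx)

/-- the nested case distinction -/
def nest {β γ δ : Type} (o1 : Option β) (o2 : Option γ) (o3 : Option δ) (f1 : β → γ)
    (f3 : δ → Option γ) : Option γ :=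
  match o1 with
  | some t => some (f1 t)
  | none => match o2 with
    | some j => some j
    | none => match o3 with
      | some t => f3 t
      | none => none

/-- the nested case distinction -/
theorem poly_nest {β γ δ : Type} [TEnc β] [TEnc γ] [TEnc δ] {o1 : α → Option β}
    {o2 : α → Option γ} {o3 : α → Option δ} {f1 : β → γ} {f3 : α → δ → Option γ}
    (h1 : Poly o1) (h2 : Poly o2) (h3 : Poly o3) (k1 : Poly f1)
    (k3 : Poly (fun a : α × δ => f3 a.1 a.2)) :
    Poly (fun a => nest (o1 a) (o2 a) (o3 a) f1 (f3 a)) := by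
  have b3 := Poly.optCases (g := fun _ => (none : Option γ)) (h := f3) h3 (Poly.const none) k3
  have b2 := Poly.optCases (h := fun _ j => some j) h2 b3 (Poly.some (Poly.snd Poly.id))
  have b1 := Poly.optCases (h := fun _ t => some (f1 t)) h1 b2
    (Poly.some (k1.comp (Poly.snd Poly.id)))
  refine b1.congr fun a => ?_
  rcases o1 a with _ | t1
  · rcases o2 a with _ | t2
    · rcases o3 a with _ | t3
      · rfl
      · rfl
    · rfl
  · rfl

attribute [local irreducible] multv cand viol gapv tA prs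

theorem nxt_eq (M : List (List Bool)) (B S : List ℕ) (Z : List (ℕ × ℕ)) (cl : List ℕ) (p : ℕ)
    (w : List Unit) (x : List ℕ) :
    nest ((prs p).find? (gapv S.length cl x)) ((List.range p).find? (multv M.length B p cl x))
      ((tA M S p w).find? (fun t => viol M B S Z p w x t.1 t.2)) Prod.fst
      (fun t => (List.range p).find? fun j => cand Z x t.1 t.2 j &&
            (List.range p).all fun i => !cand Z x t.1 t.2 i || decide (x.getD i 0 ≤ x.getD j 0)) =
    nxt M B S Z cl p w x := by
  unfold nxt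
  generalize (prs p).find? (gapv S.length cl x) = o1
  generalize (List.range p).find? (multv M.length B p cl x) = o2
  generalize (tA M S p w).find? (fun t => viol M B S Z p w x t.1 t.2) = o3
  rcases o1 with _ | t1
  · rcases o2 with _ | t2
    · rcases o3 with _ | t3
      · rfl
      · rfl
    · rfl
  · rfl

theorem poly_nxt (H : S_PVIOL) {M : α → List (List Bool)} {B S : α → List ℕ}
    {Z : α → List (ℕ × ℕ)} {cl : α → List ℕ} {p : α → ℕ} {w : α → List Unit} {x : α → List ℕ}
    (hM : Poly M) (hB : Poly B) (hS : Poly S) (hZ : Poly Z) (hc : Poly cl) (hp : UPoly p)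
    (hw : Poly w) (hx : Poly x) :
    Poly (fun a => nxt (M a) (B a) (S a) (Z a) (cl a) (p a) (w a) (x a)) := by
  have h := poly_nest (f1 := Prod.fst) (f3 := fun a t => (List.range (p a)).find? fun j =>
      cand (Z a) (x a) t.1 t.2 j &&
          (List.range (p a)).all fun i => !cand (Z a) (x a) t.1 t.2 i ||
            decide ((x a).getD i 0 ≤ (x a).getD j 0)) (poly_f1 hS hc hp hx)
    (poly_f2 hM hB hc hp hx) (poly_f3 H hM hB hS hZ hp hw hx) (Poly.fst Poly.id)
    (poly_pick hZ hp hx)
  exact h.congr fun a => nxt_eq _ _ _ _ _ _ _ _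

theorem PSTP (H : S_PVIOL) : S_PSTP := by
  intro α _ M B S Z cl p w x hM hB hS hZ hc hp hw hx
  have h1 := Poly.optCases (g := x) (h := fun a j => raise (cl a) (p a) (x a) j)
    (poly_nxt H hM hB hS hZ hc hp hw hx) hx
    (poly_raise (hc.comp (Poly.fst Poly.id)) (hp.comp (Poly.fst Poly.id))
      (hx.comp (Poly.fst Poly.id)) (Poly.snd Poly.id))
  refine h1.congr fun a => ?_
  unfold stp
  generalize nxt (M a) (B a) (S a) (Z a) (cl a) (p a) (w a) (x a) = o
  rcases o with _ | j
  · rfl
  · rfl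

theorem POK (H : S_PVIOL) : S_POK := by
  intro α _ M B S Z cl p w x hM hB hS hZ hc hp hw hx
  unfold ok
  refine Poly.and (Poly.and ?_ ?_) ?_
  · exact Poly.all (l := fun a => prs (p a)) (p := fun a t => !gapv (S a).length (cl a) (x a) t)
      (poly_prs hp) (Poly.not (poly_gapv (Poly.length (hS.comp (Poly.fst Poly.id)))
        (hc.comp (Poly.fst Poly.id)) (hx.comp (Poly.fst Poly.id)) (Poly.snd Poly.id)))
  · exact Poly.all (l := fun a => List.range (p a))
      (p := fun a j => !multv (M a).length (B a) (p a) (cl a) (x a) j) (UPoly.range hp)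
      (Poly.not (poly_multv (Poly.length (hM.comp (Poly.fst Poly.id))) (hB.comp (Poly.fst Poly.id))
        (hp.comp (Poly.fst Poly.id)) (hc.comp (Poly.fst Poly.id)) (hx.comp (Poly.fst Poly.id))
        (Poly.snd Poly.id)))
  · exact Poly.all (l := fun a => tA (M a) (S a) (p a) (w a))
      (p := fun a t => !viol (M a) (B a) (S a) (Z a) (p a) (w a) (x a) t.1 t.2)
      (poly_tA hM hS hp hw) (Poly.not (poly_vt H hM hB hS hZ hp hw hx))

end Pool.Agent.NPC.H630CV
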