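import Pool.Agent.H676.ED.Stm

set_option autoImplicit false

/-!
Proof of S_NICE of project ED of helper676 (random coefficients, union bound).
-/

namespace Pool.Agent.H630.EDNICE

open Finset Pool.Agent.H676.ED

variable {F d : ℕ}

theorem cardB (M : Finset (Fin F)) (Z : Finset (Sym2 (Fin F)))
    (h : ∀ x ∈ M, ∃ y, s(x, y) ∈ Z) :
    (univ.filter fun c : Fin F → Fin F → Fd d => ∀ x ∈ M, coef c Z x = 0).card *
      (2 ^ d) ^ M.card ≤ Fintype.card (Fin F → Fin F → Fd d) := by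
  have h' : ∀ x : Fin F, ∃ y, x ∈ M → s(x, y) ∈ Z := by
    intro x
    by_cases hx : x ∈ M
    · obtain ⟨y, hy⟩ := h x hx
      exact ⟨y, fun _ => hy⟩
    · exact ⟨x, fun h => absurd h hx⟩
  choose yy hyy using h'
  have h1 : Fintype.card (M → Fd d) = (2 ^ d) ^ M.card := by
    simp [Fd, ZMod.card]
  rw [← h1, ← Finset.card_univ (α := M → Fd d), ← Finset.card_product, ← Finset.card_univ]
  let φ : (Fin F → Fin F → Fd d) × (M → Fd d) → (Fin F → Fin F → Fd d) := fun p x y =>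
    if h : x ∈ M ∧ y = yy x then p.1 x y + p.2 ⟨x, h.1⟩ else p.1 x y
  have h2 : ∀ p x (hx : x ∈ M), coef (φ p) Z x = coef p.1 Z x + p.2 ⟨x, hx⟩ := by
    intro p x hx
    unfold coef
    have h3 : ∀ y, (if s(x, y) ∈ Z then φ p x y else 0) =
        (if s(x, y) ∈ Z then p.1 x y else 0) + if y = yy x then p.2 ⟨x, hx⟩ else 0 := by
      intro y
      by_cases hy : y = yy x
      · have h4 := hyy x hx
        rw [← hy] at h4
        have h5 : φ p x y = p.1 x y + p.2 ⟨x, hx⟩ := dif_pos ⟨hx, hy⟩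
        rw [if_pos h4, if_pos h4, if_pos hy, h5]
      · have h5 : φ p x y = p.1 x y := dif_neg fun h => hy h.2
        rw [h5, if_neg hy, add_zero]
    rw [Finset.sum_congr rfl fun y _ => h3 y, Finset.sum_add_distrib, Finset.sum_ite_eq',
      if_pos (mem_univ _)]
  refine Finset.card_le_card_of_injOn φ (fun _ _ => mem_univ _) ?_
  rintro ⟨c, u⟩ hp ⟨c', u'⟩ hp' he
  have hc : ∀ x ∈ M, coef c Z x = 0 := by
    have := hp
    simp only [Finset.coe_product, Set.mem_prod, Finset.mem_coe, mem_filter, mem_univ,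
      true_and, and_true] at this
    exact this
  have hc' : ∀ x ∈ M, coef c' Z x = 0 := by
    have := hp'
    simp only [Finset.coe_product, Set.mem_prod, Finset.mem_coe, mem_filter, mem_univ,
      true_and, and_true] at this
    exact this
  have hu : u = u' := by
    funext ⟨x, hx⟩
    have e1 := h2 (c, u) x hx
    have e2 := h2 (c', u') x hx
    simp only [hc x hx, hc' x hx, zero_add] at e1 e2
    rw [← e1, ← e2, he]
  subst hu
  have hcc : c = c' := by
    funext x y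
    have e1 := congrFun (congrFun he x) y
    by_cases hxy : x ∈ M ∧ y = yy x
    · have e2 : φ (c, u) x y = c x y + u ⟨x, hxy.1⟩ := dif_pos hxy
      have e3 : φ (c', u) x y = c' x y + u ⟨x, hxy.1⟩ := dif_pos hxy
      rw [e2, e3] at e1
      exact add_right_cancel e1
    · have e2 : φ (c, u) x y = c x y := dif_neg hxy
      have e3 : φ (c', u) x y = c' x y := dif_neg hxy
      rw [e2, e3] at e1
      exact e1
  rw [hcc]

/-- the conditions on a triple -/
def Pr (E : SimpleGraph (Fin F)) (q r : ℕ)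
    (t : Finset (Fin F) × Finset (Fin F) × Finset (Sym2 (Fin F))) : Prop :=
  t.2.1 ⊆ t.1 ∧ t.1.card ≤ r ∧ t.1.card < q * t.2.1.card ∧
    (∀ e ∈ t.2.2, e ∈ E.edgeSet ∧ ∃ x ∈ t.2.1, ∃ y ∈ t.1, e = s(x, y)) ∧
    ∀ x ∈ t.2.1, ∃ y, s(x, y) ∈ t.2.2

theorem extract (E : SimpleGraph (Fin F)) (q r : ℕ) (c : Fin F → Fin F → Fd d)
    (h : ¬ NiceX E c q r) : ∃ t, Pr E q r t ∧ ∀ x ∈ t.2.1, coef c t.2.2 x = 0 := by
  unfold NiceX at h
  push Not at h
  obtain ⟨Z, hZ, hr, hq⟩ := h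
  classical
  set M := (tch Z).filter fun x => coef c Z x = 0 with hM
  set Z' := Z.filter fun e => ∃ x ∈ M, x ∈ e with hZ'
  refine ⟨(tch Z, M, Z'), ⟨Finset.filter_subset _ _, hr, hq, ?_, ?_⟩, ?_⟩
  · intro e he
    obtain ⟨he1, x, hx, hxe⟩ := Finset.mem_filter.1 he
    refine ⟨hZ e he1, x, hx, ?_⟩
    obtain ⟨y, hy⟩ := (Sym2.mem_iff_exists).1 hxe
    refine ⟨y, ?_, hy⟩
    refine Finset.mem_filter.2 ⟨mem_univ _, x, ?_⟩
    rw [Sym2.eq_swap, ← hy]
    exact he1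
  · intro x hx
    have hx' : x ∈ tch Z := (Finset.mem_filter.1 hx).1
    obtain ⟨_, y, hy⟩ := Finset.mem_filter.1 hx'
    exact ⟨y, Finset.mem_filter.2 ⟨hy, x, hx, Sym2.mem_mk_left x y⟩⟩
  · intro x hx
    have hx' : coef c Z x = 0 := (Finset.mem_filter.1 hx).2
    rw [← hx']
    unfold coef
    refine Finset.sum_congr rfl fun y _ => ?_
    by_cases hy : s(x, y) ∈ Z
    · have hy' : s(x, y) ∈ Z' := Finset.mem_filter.2 ⟨hy, x, hx, Sym2.mem_mk_left x y⟩
      exact (if_pos hy').trans (if_pos hy).symm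
    · have hy' : s(x, y) ∉ Z' := fun h => hy (Finset.mem_filter.1 h).1
      exact (if_neg hy').trans (if_neg hy).symm

theorem cardZ (E : SimpleGraph (Fin F)) (q r D : ℕ) (hS : Sparse E q r D)
    (W M : Finset (Fin F)) (h1 : M ⊆ W) (h2 : W.card ≤ r) (h3 : W.card < q * M.card)
    (A : Finset (Finset (Sym2 (Fin F))))
    (hA : ∀ Z ∈ A, ∀ e ∈ Z, e ∈ E.edgeSet ∧ ∃ x ∈ M, ∃ y ∈ W, e = s(x, y)) :
    A.card ≤ 2 ^ (D * M.card) := by
  classical
  have h4 := hS W M h1 h2 h3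
  set S : Set (Sym2 (Fin F)) := {e | e ∈ E.edgeSet ∧ ∃ x ∈ M, ∃ y ∈ W, e = s(x, y)} with hSd
  have h5 : A ⊆ (S.toFinset).powerset := by
    intro Z hZ
    rw [Finset.mem_powerset]
    intro e he
    rw [Set.mem_toFinset]
    exact hA Z hZ e he
  refine (Finset.card_le_card h5).trans ?_
  rw [Finset.card_powerset, ← Set.ncard_eq_toFinset_card' S]
  exact Nat.pow_le_pow_right (by norm_num) h4

theorem weight (q D d m v : ℕ) (hF : 1 ≤ F) (hq : 1 ≤ q)
    (hb : 4 * q * (2 * F) ^ q * 2 ^ D ≤ 2 ^ d) (hv : v < q * m) :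
    (2 : ℝ) ^ (D * m) * ((1 / 2 : ℝ) ^ d) ^ m ≤
      (1 / 4 : ℝ) ^ m * (1 / (2 * (F : ℝ))) ^ v * (1 / (2 * (F : ℝ))) := by
  have hF' : (1 : ℝ) ≤ F := by exact_mod_cast hF
  have hq' : (1 : ℝ) ≤ q := by exact_mod_cast hq
  have hb' : 4 * (q : ℝ) * (2 * (F : ℝ)) ^ q * 2 ^ D ≤ 2 ^ d := by exact_mod_cast hb
  have h1 : (2 : ℝ) ^ D * (1 / 2 : ℝ) ^ d ≤ (1 / 4) * (1 / (2 * (F : ℝ))) ^ q := by
    rw [one_div_pow, one_div_pow, mul_one_div, mul_one_div, div_le_div_iff₀ (by positivity)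
      (by positivity)]
    have h2 : 4 * (1 : ℝ) * (2 * (F : ℝ)) ^ q * 2 ^ D ≤ 4 * (q : ℝ) * (2 * (F : ℝ)) ^ q * 2 ^ D := by
      gcongr
    linarith
  have h3 : (2 : ℝ) ^ (D * m) * ((1 / 2 : ℝ) ^ d) ^ m = ((2 : ℝ) ^ D * (1 / 2 : ℝ) ^ d) ^ m := by
    rw [pow_mul, mul_pow]
  rw [h3]
  calc ((2 : ℝ) ^ D * (1 / 2 : ℝ) ^ d) ^ m ≤ ((1 / 4) * (1 / (2 * (F : ℝ))) ^ q) ^ m := by
        gcongr
    _ = (1 / 4) ^ m * (1 / (2 * (F : ℝ))) ^ (q * m) := by rw [mul_pow, pow_mul]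
    _ ≤ (1 / 4) ^ m * (1 / (2 * (F : ℝ))) ^ (v + 1) := by
        refine mul_le_mul_of_nonneg_left ?_ (by positivity)
        refine pow_le_pow_of_le_one (by positivity) ?_ hv
        rw [div_le_one (by positivity)]
        linarith
    _ = _ := by rw [pow_succ, mul_assoc]

theorem sumWM (hF : 1 ≤ F) :
    ∑ W : Finset (Fin F), ∑ M ∈ W.powerset,
      (1 / 4 : ℝ) ^ M.card * (1 / (2 * (F : ℝ))) ^ W.card * (1 / (2 * (F : ℝ))) < 1 := by
  have hF' : (1 : ℝ) ≤ F := by exact_mod_cast hF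
  have h1 : ∀ W : Finset (Fin F), ∑ M ∈ W.powerset,
      (1 / 4 : ℝ) ^ M.card * (1 / (2 * (F : ℝ))) ^ W.card * (1 / (2 * (F : ℝ))) =
      (5 / (8 * (F : ℝ))) ^ W.card * (1 / (2 * (F : ℝ))) := by
    intro W
    rw [← Finset.sum_mul, ← Finset.sum_mul]
    have h2 := Finset.sum_pow_mul_eq_add_pow (1 / 4 : ℝ) 1 W
    simp only [one_pow, mul_one] at h2
    rw [h2, ← mul_pow]
    congr 2
    field_simp
    norm_num
  rw [Finset.sum_congr rfl fun W _ => h1 W, ← Finset.sum_mul]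
  have h3 := Finset.sum_pow_mul_eq_add_pow (5 / (8 * (F : ℝ))) 1 (univ : Finset (Fin F))
  simp only [one_pow, mul_one, Finset.powerset_univ, Finset.card_univ, Fintype.card_fin] at h3
  rw [h3]
  have h4 : (5 / (8 * (F : ℝ)) + 1) ^ F ≤ Real.exp (5 / 8) := by
    calc (5 / (8 * (F : ℝ)) + 1) ^ F ≤ (Real.exp (5 / (8 * (F : ℝ)))) ^ F := by
          gcongr
          exact Real.add_one_le_exp _
      _ = Real.exp (5 / 8) := by
          rw [← Real.exp_nat_mul]
          congr 1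
          field_simp
  have h5 : Real.exp (5 / 8) < 2 := by
    have h6 : (5 / 8 : ℝ) < Real.log 2 := by
      have := Real.log_two_gt_d9
      linarith
    calc Real.exp (5 / 8) < Real.exp (Real.log 2) := Real.exp_lt_exp.2 h6
      _ = 2 := Real.exp_log (by norm_num)
  have h7 : 1 / (2 * (F : ℝ)) ≤ 1 / 2 := by
    apply one_div_le_one_div_of_le <;> linarith
  have h8 : 0 < 1 / (2 * (F : ℝ)) := by positivity
  calc (5 / (8 * (F : ℝ)) + 1) ^ F * (1 / (2 * (F : ℝ))) < 2 * (1 / (2 * (F : ℝ))) := by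
        apply mul_lt_mul_of_pos_right _ h8
        linarith
    _ ≤ 2 * (1 / 2) := by linarith
    _ = 1 := by norm_num

theorem t_NICE : S_NICE := by
  intro F d q r D E hq hS hb
  classical
  by_contra hcon
  push Not at hcon
  rcases Nat.eq_zero_or_pos F with hF | hF
  · subst hF
    refine hcon 0 ?_
    intro Z _ _
    have : tch Z = ∅ := Finset.eq_empty_of_forall_notMem fun x => x.elim0
    rw [this]
    simp
  set T : Finset (Finset (Fin F) × Finset (Fin F) × Finset (Sym2 (Fin F))) :=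
    univ.filter fun t => Pr E q r t with hT
  set B : Finset (Fin F) × Finset (Fin F) × Finset (Sym2 (Fin F)) →
      Finset (Fin F → Fin F → Fd d) :=
    fun t => univ.filter fun c => ∀ x ∈ t.2.1, coef c t.2.2 x = 0 with hB
  have h1 : (univ : Finset (Fin F → Fin F → Fd d)) ⊆ T.biUnion B := by
    intro c _
    obtain ⟨t, ht, hc⟩ := extract E q r c (hcon c)
    exact Finset.mem_biUnion.2 ⟨t, Finset.mem_filter.2 ⟨mem_univ _, ht⟩,
      Finset.mem_filter.2 ⟨mem_univ _, hc⟩⟩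
  have h2 : (Fintype.card (Fin F → Fin F → Fd d)) ≤ ∑ t ∈ T, (B t).card :=
    (Finset.card_le_card h1).trans Finset.card_biUnion_le
  set N : ℝ := (Fintype.card (Fin F → Fin F → Fd d) : ℝ) with hN
  have hNpos : 0 < N := by
    rw [hN]
    exact_mod_cast Fintype.card_pos
  have h3 : ∀ t ∈ T, ((B t).card : ℝ) ≤ N * ((1 / 2 : ℝ) ^ d) ^ t.2.1.card := by
    intro t ht
    have ht' := (Finset.mem_filter.1 ht).2
    have h4 := cardB (d := d) t.2.1 t.2.2 ht'.2.2.2.2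
    have h5 : ((B t).card : ℝ) * (2 ^ d) ^ t.2.1.card ≤ N := by
      rw [hN]
      exact_mod_cast h4
    have h6 : ((1 / 2 : ℝ) ^ d) ^ t.2.1.card = 1 / (2 ^ d) ^ t.2.1.card := by
      rw [one_div_pow, one_div_pow]
    rw [h6, mul_one_div, le_div_iff₀ (by positivity)]
    exact h5
  have h4 : N ≤ N * ∑ t ∈ T, ((1 / 2 : ℝ) ^ d) ^ t.2.1.card := by
    calc N ≤ ((∑ t ∈ T, (B t).card : ℕ) : ℝ) := by
          rw [hN]
          exact_mod_cast h2
      _ = ∑ t ∈ T, ((B t).card : ℝ) := by push_cast; rfl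
      _ ≤ ∑ t ∈ T, N * ((1 / 2 : ℝ) ^ d) ^ t.2.1.card := Finset.sum_le_sum h3
      _ = _ := by rw [Finset.mul_sum]
  have h5 : ∑ t ∈ T, ((1 / 2 : ℝ) ^ d) ^ t.2.1.card < 1 := by
    rw [hT, Finset.sum_filter, Fintype.sum_prod_type]
    refine lt_of_le_of_lt (Finset.sum_le_sum fun W _ => ?_) (sumWM hF)
    rw [Fintype.sum_prod_type]
    have h6 : ∀ M : Finset (Fin F), (∑ Z : Finset (Sym2 (Fin F)),
        if Pr E q r (W, M, Z) then ((1 / 2 : ℝ) ^ d) ^ M.card else 0) ≤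
        if M ⊆ W then (1 / 4 : ℝ) ^ M.card * (1 / (2 * (F : ℝ))) ^ W.card * (1 / (2 * (F : ℝ)))
          else 0 := by
      intro M
      rw [← Finset.sum_filter, Finset.sum_const, nsmul_eq_mul]
      by_cases hc : M ⊆ W ∧ W.card ≤ r ∧ W.card < q * M.card
      · rw [if_pos hc.1]
        refine le_trans ?_ (weight q D d M.card W.card hF hq hb hc.2.2)
        refine mul_le_mul_of_nonneg_right ?_ (by positivity)
        have h7 := cardZ E q r D hS W M hc.1 hc.2.1 hc.2.2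
          (univ.filter fun Z => Pr E q r (W, M, Z))
          (fun Z hZ => (Finset.mem_filter.1 hZ).2.2.2.2.1)
        exact_mod_cast h7
      · have h8 : (univ.filter fun Z => Pr E q r (W, M, Z)) = ∅ := by
          refine Finset.eq_empty_of_forall_notMem fun Z hZ => hc ?_
          have := (Finset.mem_filter.1 hZ).2
          exact ⟨this.1, this.2.1, this.2.2.1⟩
        rw [h8, Finset.card_empty, Nat.cast_zero, zero_mul]
        split_ifs <;> positivity
    refine (Finset.sum_le_sum fun M _ => h6 M).trans ?_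
    rw [← Finset.sum_filter]
    refine le_of_eq (Finset.sum_congr ?_ fun _ _ => rfl)
    ext M
    simp
  have h6 : N * ∑ t ∈ T, ((1 / 2 : ℝ) ^ d) ^ t.2.1.card < N * 1 :=
    mul_lt_mul_of_pos_left h5 hNpos
  linarith

end Pool.Agent.H630.EDNICE
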